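import Pool.Agent.N212.FQ.F

/-!
# Finite groups acting freely on a hypersurface: the prime factors of the order
-/

set_option autoImplicit false

namespace Pool.Agent.J6H88.FQ

open MvPolynomial Pool.Agent.N212.FQ

variable {M : ℕ} {G : Type} [Group G] {ρ : Representation ℂ G (Fin M → ℂ)}

/-- the dimension is at most `l` if `A ^ l` is a nonzero scalar and the eigenspaces of `A` have
dimension at most one -/
theorem dim_le {l : ℕ} (hl : 0 < l) {c : ℂ} (hc : c ≠ 0) (A : Module.End ℂ (Fin M → ℂ))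
    (hA : ∀ x, (A ^ l) x = c • x)
    (h1 : ∀ (x y : Fin M → ℂ) (μ : ℂ), LinearIndependent ℂ ![x, y] → A x = μ • x →
      A y = μ • y → False) :
    M ≤ l := by
  classical
  have hss : A.IsSemisimple := by
    refine Module.End.isSemisimple_of_squarefree_aeval_eq_zero
      (p := Polynomial.X ^ l - Polynomial.C c) ?_ ?_
    · exact (Polynomial.separable_X_pow_sub_C c (by exact_mod_cast hl.ne') hc).squarefree
    · refine LinearMap.ext fun x => ?_
      simp [hA]
  have htop : ⨆ μ, A.eigenspace μ = ⊤ := by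
    rw [← Module.End.iSup_maxGenEigenspace_eq_top A]
    congr 1
    ext1 μ
    rw [hss.isFinitelySemisimple.maxGenEigenspace_eq_eigenspace]
  set R : Finset ℂ := (Polynomial.nthRoots l c).toFinset with hRdef
  have hR : ∀ (μ : ℂ) (x : Fin M → ℂ), x ≠ 0 → A x = μ • x → μ ∈ R := by
    intro μ x hx0 hx
    have hpow : ∀ k : ℕ, (A ^ k) x = μ ^ k • x := by
      intro k
      induction k with
      | zero => simp
      | succ k ih => rw [pow_succ', Module.End.mul_apply, ih, map_smul, hx, smul_smul, pow_succ]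
    have h2 := hpow l
    rw [hA] at h2
    have h3 := smul_left_injective ℂ hx0 h2
    rw [hRdef, Multiset.mem_toFinset, Polynomial.mem_nthRoots hl]
    exact h3.symm
  have hw : ∀ μ : ℂ, ∃ w : Fin M → ℂ, ∀ x, A x = μ • x → ∃ a : ℂ, x = a • w := by
    intro μ
    by_cases h : ∃ w, w ≠ 0 ∧ A w = μ • w
    · obtain ⟨w, hw0, hw⟩ := h
      refine ⟨w, fun x hx => ?_⟩
      by_contra hcon
      push Not at hcon
      refine h1 w x μ ?_ hw hx
      rw [LinearIndependent.pair_iff' hw0]
      intro a ha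
      exact hcon a ha.symm
    · push Not at h
      refine ⟨0, fun x hx => ⟨0, ?_⟩⟩
      by_contra hx0
      rw [smul_zero] at hx0
      exact h x hx0 hx
  choose w hw using hw
  have hspan : (⊤ : Submodule ℂ (Fin M → ℂ)) ≤ Submodule.span ℂ (R.image w : Set (Fin M → ℂ)) := by
    rw [← htop]
    refine iSup_le fun μ x hx => ?_
    by_cases hx0 : x = 0
    · rw [hx0]
      exact Submodule.zero_mem _
    · have hx' : A x = μ • x := Module.End.mem_eigenspace_iff.1 hx
      obtain ⟨a, ha⟩ := hw μ x hx'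
      rw [ha]
      refine Submodule.smul_mem _ _ (Submodule.subset_span ?_)
      rw [Finset.coe_image]
      exact ⟨μ, hR μ x hx0 hx', rfl⟩
  have h2 := finrank_span_finset_le_card (R := ℂ) (R.image w)
  rw [Set.finrank, top_le_iff.1 hspan, finrank_top] at h2
  simp only [Module.finrank_fintype_fun_eq_card, Fintype.card_fin] at h2
  calc M ≤ (R.image w).card := h2
    _ ≤ R.card := Finset.card_image_le
    _ ≤ Multiset.card (Polynomial.nthRoots l c) := Multiset.toFinset_card_le _
    _ ≤ l := Polynomial.card_nthRoots l c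

variable [Finite G]

/-- the hypotheses: `G` acts on `{f = 0}`, freely modulo scalars -/
structure Hyp (ρ : Representation ℂ G (Fin M → ℂ)) (f : MvPolynomial (Fin M) ℂ) (d : ℕ) : Prop where
  pos : 1 ≤ d
  hom : f.IsHomogeneous d
  stable : ∀ g : G, ∀ p ∈ Ideal.span {f}, subst (ρ g) p ∈ Ideal.span {f}
  free : ∀ v : Fin M → ℂ, v ≠ 0 → eval v f = 0 → ∀ (g : G) (μ : ℂ), ρ g v = μ • v →
    g ∈ scalars ρ

variable {f : MvPolynomial (Fin M) ℂ} {d : ℕ}

omit [Finite G] in
/-- the eigenspaces have dimension one -/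
theorem Hyp.simple (H : Hyp ρ f d) {g : G} {x y : Fin M → ℂ} {μ : ℂ}
    (hli : LinearIndependent ℂ ![x, y]) (hx : ρ g x = μ • x) (hy : ρ g y = μ • y) :
    g ∈ scalars ρ := by
  obtain ⟨s, t, hne, h0⟩ := Pool.Agent.N738.FQ.exists_zero H.pos H.hom hli
  refine H.free _ hne h0 g μ ?_
  rw [map_add, map_smul, map_smul, hx, hy, smul_add, smul_comm μ s, smul_comm μ t]

/-- every prime factor of the order is at least the number of variables -/
theorem Hyp.prime_ge (H : Hyp ρ f d) (hM : 1 ≤ M) {l : ℕ} (hl : l.Prime)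
    (hdvd : l ∣ (scalars ρ).index) : M ≤ l := by
  have : Fact l.Prime := ⟨hl⟩
  have : NeZero M := ⟨by omega⟩
  obtain ⟨x, hx⟩ := exists_prime_orderOf_dvd_card' (G := G ⧸ scalars ρ) l (by
    rwa [Subgroup.index] at hdvd)
  obtain ⟨g, rfl⟩ := QuotientGroup.mk_surjective x
  have hg : g ∉ scalars ρ := by
    intro h
    rw [(QuotientGroup.eq_one_iff g).2 h, orderOf_one] at hx
    exact hl.one_lt.ne hx
  have hgl : g ^ l ∈ scalars ρ := by
    rw [← QuotientGroup.eq_one_iff, QuotientGroup.mk_pow, ← hx, pow_orderOf_eq_one]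
  obtain ⟨c, hc⟩ := hgl
  have hc0 : c ≠ 0 := by
    rintro rfl
    have h1 := hc (Pi.single 0 1)
    rw [zero_smul] at h1
    exact rep_ne_zero (v := Pi.single (0 : Fin M) (1 : ℂ)) (by simp) _ h1
  refine dim_le hl.pos hc0 (ρ g) (fun x => ?_) fun x y μ hli hx hy => hg (H.simple hli hx hy)
  rw [← map_pow]
  exact hc x

omit [Finite G] in
theorem Hyp.semi (H : Hyp ρ f d) (g : G) : ∃ c : ℂ, ∀ x, eval (ρ g x) f = c * eval x f := by
  obtain ⟨q, hq⟩ := Ideal.mem_span_singleton'.1
    (H.stable g f (Ideal.mem_span_singleton_self f))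
  by_cases h0 : subst (ρ g) f = 0
  · refine ⟨0, fun x => ?_⟩
    rw [← eval_subst, h0, map_zero, zero_mul]
  · have hf0 : f ≠ 0 := by
      rintro rfl
      rw [mul_zero] at hq
      exact h0 hq.symm
    have hq0 : q ≠ 0 := by
      rintro rfl
      rw [zero_mul] at hq
      exact h0 hq.symm
    have h2 := totalDegree_mul_of_isDomain hq0 hf0
    rw [hq, (subst_isHomogeneous (ρ g) H.hom).totalDegree h0, H.hom.totalDegree hf0] at h2
    have h3 : q.totalDegree = 0 := by omega
    have h4 := totalDegree_eq_zero_iff_eq_C.1 h3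
    refine ⟨coeff 0 q, fun x => ?_⟩
    rw [← eval_subst, ← hq, map_mul]
    conv_lhs => rw [h4, eval_C]

/-- the order divides `k d` if `O(k)` descends -/
theorem Hyp.dvd (H : Hyp ρ f d) (hM : 2 ≤ M) {k : ℕ} (hk : 1 ≤ k) (θ : G →* ℂˣ)
    (hθ : ∀ (g : G) (c : ℂ), (∀ x, ρ g x = c • x) → (θ g : ℂ) = c ^ k) :
    (scalars ρ).index ∣ k * d := by
  have h1 : Nat.card G ∣ k * d * Nat.card (scalars ρ) :=
    ord_dvd hM H.pos hk H.hom H.semi (fun v hv0 hv g μ h => H.free v hv0 hv g μ h) θ hθ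
  rw [← Subgroup.index_mul_card (scalars ρ)] at h1
  exact Nat.dvd_of_mul_dvd_mul_right Nat.card_pos h1

/-- `O(M)` descends -/
theorem Hyp.dvd_det (H : Hyp ρ f d) (hM : 2 ≤ M) : (scalars ρ).index ∣ M * d := by
  refine H.dvd hM (by omega) ((LinearMap.det.comp ρ).toHomUnits) fun g c hc => ?_
  rw [MonoidHom.coe_toHomUnits, MonoidHom.comp_apply]
  have h1 : ρ g = c • (1 : Module.End ℂ (Fin M → ℂ)) := LinearMap.ext fun x => hc x
  rw [h1]
  show LinearMap.det (c • (1 : (Fin M → ℂ) →ₗ[ℂ] (Fin M → ℂ))) = c ^ M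
  rw [LinearMap.det_smul, Module.finrank_fintype_fun_eq_card, Fintype.card_fin]
  simp

/-- `O(d)` descends -/
theorem Hyp.dvd_sq (H : Hyp ρ f d) (hM : 2 ≤ M) : (scalars ρ).index ∣ d * d := by
  classical
  by_cases hfz : ∃ v : Fin M → ℂ, v ≠ 0 ∧ eval v f ≠ 0
  · obtain ⟨v, hv0, hv⟩ := hfz
    choose c hc using H.semi
    have hmul : ∀ g h, c (g * h) = c g * c h := by
      intro g h
      have h1 := hc (g * h) v
      rw [map_mul, Module.End.mul_apply, hc, hc, ← mul_assoc] at h1
      exact (mul_right_cancel₀ hv h1).symm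
    have hone : c 1 = 1 := by
      have h1 := hc 1 v
      rw [map_one, Module.End.one_apply] at h1
      exact (mul_right_cancel₀ hv (by rw [one_mul]; exact h1)).symm
    let θ : G →* ℂ := { toFun := c, map_one' := hone, map_mul' := hmul }
    refine H.dvd hM H.pos θ.toHomUnits fun g a ha => ?_
    rw [MonoidHom.coe_toHomUnits]
    have h1 := hc g v
    rw [ha v, eval_smul_of_isHomogeneous H.hom] at h1
    exact (mul_right_cancel₀ hv h1).symm
  · push Not at hfz
    -- `f` vanishes everywhere: then `G` acts by scalars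
    have h1 : scalars ρ = ⊤ := by
      rw [eq_top_iff]
      intro g _
      obtain ⟨x, y, μ, ν, hli, hx, hy⟩ := Pool.Agent.N738.FQ.two_eig hM (orderOf_pos g) (ρ g) (by
        rw [← map_pow, pow_orderOf_eq_one, map_one])
      exact H.free x (hli.ne_zero 0) (hfz x (hli.ne_zero 0)) g μ hx
    rw [h1, Subgroup.index_top]
    exact one_dvd _

/-- the order divides the degree, except if the number of variables is a prime factor of the
degree (and of `k`) -/
theorem Hyp.dvd_degree (H : Hyp ρ f d) (hM : 2 ≤ M)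
    (h : ¬ M.Prime ∨ ¬ M ∣ d ∨ ∃ (k : ℕ) (θ : G →* ℂˣ), 1 ≤ k ∧ ¬ M ∣ k ∧
      ∀ (g : G) (c : ℂ), (∀ x, ρ g x = c • x) → (θ g : ℂ) = c ^ k) :
    (scalars ρ).index ∣ d := by
  have hM0 : 0 < M := by omega
  by_cases hMp : M.Prime
  · rcases h with h | h | ⟨k, θ, hk, hMk, hθ⟩
    · exact absurd hMp h
    · have hcop : Nat.Coprime (scalars ρ).index M := by
        rw [Nat.coprime_comm, hMp.coprime_iff_not_dvd]
        intro h1
        exact h ((hMp.dvd_mul.1 (h1.trans (H.dvd_sq hM))).elim id id)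
      exact hcop.dvd_of_dvd_mul_left (H.dvd_det hM)
    · have h1 := H.dvd hM hk θ hθ
      have h2 := H.dvd_det hM
      have h3 := Nat.dvd_gcd h1 h2
      rw [Nat.gcd_mul_right, Nat.Coprime.gcd_eq_one (((hMp.coprime_iff_not_dvd).2 hMk).symm),
        one_mul] at h3
      exact h3
  · have hcop : Nat.Coprime (scalars ρ).index M := by
      by_contra hcon
      obtain ⟨p, hp, h1, h2⟩ := Nat.Prime.not_coprime_iff_dvd.1 hcon
      have h3 := H.prime_ge (by omega) hp h1
      have h4 := Nat.le_of_dvd hM0 h2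
      exact hMp ((le_antisymm h3 h4) ▸ hp)
    exact hcop.dvd_of_dvd_mul_left (H.dvd_det hM)

/-- if `M` divides the degree `d < M ^ 2` then the order is at most `M ^ 2` -/
theorem Hyp.le_sq (H : Hyp ρ f d) (hM : 2 ≤ M) (hd : M ∣ d) (hd2 : d < M ^ 2) :
    (scalars ρ).index ≤ M ^ 2 := by
  obtain ⟨j, rfl⟩ := hd
  have hj0 : 0 < j := Nat.pos_of_ne_zero fun h => by
    have := H.pos
    rw [h, mul_zero] at this
    omega
  have hj : j < M := by
    rw [pow_two] at hd2
    exact lt_of_mul_lt_mul_left hd2 (Nat.zero_le _)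
  have hcop : Nat.Coprime (scalars ρ).index j := by
    by_contra hcon
    obtain ⟨p, hp, h1, h2⟩ := Nat.Prime.not_coprime_iff_dvd.1 hcon
    have h3 := H.prime_ge (by omega) hp h1
    have h4 := Nat.le_of_dvd hj0 h2
    omega
  have h1 := H.dvd_det hM
  rw [← mul_assoc] at h1
  have h2 := hcop.dvd_of_dvd_mul_right h1
  have h3 := Nat.le_of_dvd (by positivity) h2
  rwa [pow_two]

end Pool.Agent.J6H88.FQ
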